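import Pool.Agent.Helper89.A8.Stmts

/-!
# Block G02: lifts of elements of odd order, lifts to centralisers
-/

set_option autoImplicit false

namespace Pool.Agent.A8

open Matrix

theorem bLIFT : S_LIFT := by
  intro G _ _ π hC g n hn hg
  obtain ⟨y, hy⟩ := hC.surj g
  have hyn : y ^ n ∈ π.ker := by
    rw [MonoidHom.mem_ker, map_pow, hy, hg]
  obtain ⟨k, hk⟩ := hC.ker2 ⟨y ^ n, hyn⟩
  have hk' : (y ^ n) ^ 2 ^ k = 1 := by
    have := congrArg Subtype.val hk
    simpa using this
  have hco : Nat.Coprime n (2 ^ k) := (Nat.coprime_two_right.2 hn).pow_right k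
  obtain ⟨m, hm1, hm2⟩ := Nat.chineseRemainder hco 1 0
  refine ⟨y ^ m, ?_, ?_⟩
  · rw [map_pow, hy]
    have : g ^ m = g ^ 1 := by
      rw [pow_eq_pow_iff_modEq]
      exact hm1.of_dvd (orderOf_dvd_of_pow_eq_one hg)
    rw [this, pow_one]
  · obtain ⟨l, hl⟩ := (Nat.modEq_zero_iff_dvd.1 hm2)
    rw [← pow_mul, mul_comm m n, pow_mul, hl, pow_mul, hk', one_pow]

section
variable {G : Type} [Group G] (π : G →* Gam) (s : G) (c : Gam)

private theorem G02_comm (h : c * π s = π s * c) (t : G) (ht : t ∈ Subgroup.zpowers s) :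
    π t * c * (π t)⁻¹ = c := by
  obtain ⟨j, rfl⟩ := Subgroup.mem_zpowers_iff.1 ht
  have h1 : Commute (π s) c := h.symm
  have h2 : Commute (π (s ^ j)) c := by
    rw [map_zpow]
    exact h1.zpow_left j
  rw [h2.eq, mul_assoc, mul_inv_cancel, mul_one]

/-- the conjugation action on the lifts of an element commuting with `π s` -/
@[reducible] private def G02_act (h : c * π s = π s * c) : MulAction (Subgroup.zpowers s) {x : G // π x = c} where
  smul t x := ⟨t * x * (t : G)⁻¹, by
    rw [map_mul, map_mul, map_inv, x.2]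
    exact G02_comm π s c h t t.2⟩
  one_smul x := by
    apply Subtype.ext
    change ((1 : Subgroup.zpowers s) : G) * x * ((1 : Subgroup.zpowers s) : G)⁻¹ = x
    simp
  mul_smul a b x := by
    apply Subtype.ext
    change ((a * b : Subgroup.zpowers s) : G) * x * ((a * b : Subgroup.zpowers s) : G)⁻¹
      = a * (b * x * (b : G)⁻¹) * (a : G)⁻¹
    simp [mul_assoc]

end

theorem bLIFTC (_h : S_LIFT) : S_LIFTC := by
  intro G _ _ π hC s c hs hcs
  obtain ⟨x0, hx0⟩ := hC.surj c
  let _ := G02_act π s c hcs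
  have h3 : IsPGroup 3 (Subgroup.zpowers s) := by
    intro t
    refine ⟨1, ?_⟩
    obtain ⟨t, ht⟩ := t
    obtain ⟨j, rfl⟩ := Subgroup.mem_zpowers_iff.1 ht
    apply Subtype.ext
    change (s ^ j) ^ 3 ^ 1 = 1
    rw [pow_one, ← zpow_natCast, ← _root_.zpow_mul, mul_comm, _root_.zpow_mul, zpow_natCast, hs, _root_.one_zpow]
  have : Fact (Nat.Prime 3) := ⟨Nat.prime_three⟩
  have : Fact (Nat.Prime 2) := ⟨Nat.prime_two⟩
  have hcard := h3.card_modEq_card_fixedPoints {x : G // π x = c}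
  let e : π.ker ≃ {x : G // π x = c} :=
    { toFun := fun k => ⟨x0 * k, by rw [map_mul, hx0, MonoidHom.mem_ker.1 k.2, mul_one]⟩
      invFun := fun x => ⟨x0⁻¹ * x, by rw [MonoidHom.mem_ker, map_mul, map_inv, hx0, x.2, inv_mul_cancel]⟩
      left_inv := fun k => by simp
      right_inv := fun x => by simp }
  have hc1 : Nat.card {x : G // π x = c} = Nat.card π.ker := (Nat.card_congr e).symm
  obtain ⟨n, hn⟩ := IsPGroup.iff_card.1 hC.ker2
  have hne : Nat.card (MulAction.fixedPoints (Subgroup.zpowers s) {x : G // π x = c}) ≠ 0 := by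
    intro h0
    rw [h0, hc1, hn] at hcard
    have h4 : 3 ∣ 2 ^ n := (Nat.modEq_zero_iff_dvd).1 hcard
    have h5 := Nat.Prime.dvd_of_dvd_pow Nat.prime_three h4
    omega
  have hne' : Nonempty (MulAction.fixedPoints (Subgroup.zpowers s) {x : G // π x = c}) := by
    by_contra hcon
    rw [not_nonempty_iff] at hcon
    exact hne (Nat.card_of_isEmpty)
  obtain ⟨x, hx⟩ := hne'
  refine ⟨x.1, x.2, ?_⟩
  have h6 := congrArg Subtype.val (hx ⟨s, Subgroup.mem_zpowers s⟩)
  have h7 : s * x.1 * s⁻¹ = x.1 := h6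
  calc x.1 * s = (s * x.1 * s⁻¹) * s := by rw [h7]
    _ = s * x.1 := by rw [inv_mul_cancel_right]

end Pool.Agent.A8
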